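import Pool.Agent.H57.SC.Targets

/-! MP_eb32d7_co, module ZZ: the largest tight set -/

set_option autoImplicit false

namespace Pool.Agent.H48.SC

open Finset Pool.Agent.H57.SC

section

variable {W C B : Type} [Fintype W] [Fintype C] [DecidableEq C] [Fintype B]
  [DecidableEq B] {cyc : W → C} {blk : W → B} {adj : W → W → Prop} {Q : Finset B} {f : C → W}

omit [Fintype W] [DecidableEq C] [Fintype B] [DecidableEq B] in
theorem mem_Cov {Y : Finset B} {c : C} :
    c ∈ Cov cyc blk adj Q Y ↔ ∃ x, Al cyc blk adj Q c x ∧ blk x ∈ Y := by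
  unfold Cov
  simp only [Finset.mem_filter, Finset.mem_univ, true_and]

omit [Fintype W] [DecidableEq C] [Fintype B] in
theorem sum_cn (Y : Finset B) :
    ∑ b ∈ Y, cn blk f b = (univ.filter (fun c => blk (f c) ∈ Y)).card := by
  rw [Finset.card_eq_sum_card_fiberwise (f := fun c => blk (f c)) (t := Y)]
  · refine Finset.sum_congr rfl fun b hb => ?_
    unfold cn
    congr 1
    ext c
    simp only [Finset.mem_filter, Finset.mem_univ, true_and]
    constructor
    · intro h
      exact ⟨h ▸ hb, h⟩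
    · exact fun h => h.2
  · intro c hc
    exact (Finset.mem_filter.1 (Finset.mem_coe.1 hc)).2

omit [Fintype W] [DecidableEq C] [Fintype B] in
theorem sub_Cov (hS : St cyc blk adj Q f) (Y : Finset B) :
    univ.filter (fun c => blk (f c) ∈ Y) ⊆ Cov cyc blk adj Q Y := by
  intro c hc
  rw [mem_Cov]
  exact ⟨f c, hS.al c, (Finset.mem_filter.1 hc).2⟩

omit [Fintype W] [DecidableEq C] [Fintype B] in
theorem dem_le (hS : St cyc blk adj Q f) (Y : Finset B) :
    ∑ b ∈ Y, dem Q b ≤ (Cov cyc blk adj Q Y).card :=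
  (Finset.sum_le_sum fun b _ => hS.dm b).trans
    ((sum_cn Y).le.trans (Finset.card_le_card (sub_Cov hS Y)))

omit [Fintype W] [Fintype B] in
theorem tight_union (hS : St cyc blk adj Q f) {Y Y' : Finset B}
    (h : (Cov cyc blk adj Q Y).card = ∑ b ∈ Y, dem Q b)
    (h' : (Cov cyc blk adj Q Y').card = ∑ b ∈ Y', dem Q b) :
    (Cov cyc blk adj Q (Y ∪ Y')).card = ∑ b ∈ Y ∪ Y', dem Q b := by
  have h1 : Cov cyc blk adj Q (Y ∪ Y') = Cov cyc blk adj Q Y ∪ Cov cyc blk adj Q Y' := by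
    ext c
    rw [Finset.mem_union, mem_Cov, mem_Cov, mem_Cov]
    constructor
    · rintro ⟨x, hx, hy⟩
      rcases Finset.mem_union.1 hy with hy | hy
      · exact Or.inl ⟨x, hx, hy⟩
      · exact Or.inr ⟨x, hx, hy⟩
    · rintro (⟨x, hx, hy⟩ | ⟨x, hx, hy⟩)
      · exact ⟨x, hx, Finset.mem_union_left _ hy⟩
      · exact ⟨x, hx, Finset.mem_union_right _ hy⟩
  have h2 : Cov cyc blk adj Q (Y ∩ Y') ⊆ Cov cyc blk adj Q Y ∩ Cov cyc blk adj Q Y' := by
    intro c hc
    rw [mem_Cov] at hc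
    obtain ⟨x, hx, hy⟩ := hc
    rw [Finset.mem_inter] at hy
    rw [Finset.mem_inter, mem_Cov, mem_Cov]
    exact ⟨⟨x, hx, hy.1⟩, x, hx, hy.2⟩
  have h3 := Finset.card_union_add_card_inter (Cov cyc blk adj Q Y) (Cov cyc blk adj Q Y')
  have h4 := Finset.card_le_card h2
  have h5 := Finset.sum_union_inter (s₁ := Y) (s₂ := Y') (f := fun b => dem Q b)
  have h6 := dem_le hS (Y ∪ Y')
  have h7 := dem_le hS (Y ∩ Y')
  rw [h1] at h6 ⊢
  omega

end

theorem pf_zz : T_ZZ := by
  intro W C B _ _ _ _ _ _ cyc blk adj Q f hS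
  classical
  -- a tight set of maximal cardinality
  obtain ⟨Z, hZ, hmax⟩ := Finset.exists_max_image
    ((univ : Finset (Finset B)).filter
      (fun Y => (Cov cyc blk adj Q Y).card = ∑ b ∈ Y, dem Q b)) (fun Y => Y.card)
    ⟨∅, by
      rw [Finset.mem_filter]
      refine ⟨Finset.mem_univ _, ?_⟩
      have h : Cov cyc blk adj Q ∅ = ∅ := by
        rw [Finset.eq_empty_iff_forall_notMem]
        intro c hc
        rw [mem_Cov] at hc
        obtain ⟨x, -, hx⟩ := hc
        exact absurd hx (Finset.notMem_empty _)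
      rw [h, Finset.sum_empty, Finset.card_empty]⟩
  have hZt := (Finset.mem_filter.1 hZ).2
  have hA : univ.filter (fun c => blk (f c) ∈ Z) = Cov cyc blk adj Q Z := by
    refine Finset.eq_of_subset_of_card_le (sub_Cov hS Z) ?_
    rw [hZt, ← sum_cn]
    exact Finset.sum_le_sum fun b _ => hS.dm b
  refine ⟨Z, ?_, ?_, ?_⟩
  · intro Y hY
    have h1 := tight_union hS hY hZt
    have h2 : (Y ∪ Z).card ≤ Z.card :=
      hmax _ (Finset.mem_filter.2 ⟨Finset.mem_univ _, h1⟩)
    have h3 : Z = Y ∪ Z := Finset.eq_of_subset_of_card_le Finset.subset_union_right h2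
    rw [h3]
    exact Finset.subset_union_left
  · intro c x hx hxZ
    have h1 : c ∈ Cov cyc blk adj Q Z := mem_Cov.2 ⟨x, hx, hxZ⟩
    rw [← hA] at h1
    exact (Finset.mem_filter.1 h1).2
  · have h1 : ∑ b ∈ Z, dem Q b = ∑ b ∈ Z, cn blk f b := by
      rw [sum_cn, hA, hZt]
    intro b hb
    exact ((Finset.sum_eq_sum_iff_of_le fun b _ => hS.dm b).1 h1 b hb).symm

end Pool.Agent.H48.SC
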